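import Pool.Agent.X123.Sail.Final

/-!
# Best approximations of an algebraic arrangement that are not on the sails

Let `R` be the arrangement of the two lines `y = (1000 + φ) x`, `y = (1000 + ψ) x`, where
`φ = (1 + √5)/2`, `ψ = (1 - √5)/2`; it is algebraic. The integer points of its sails are the
vectors `±(F_k, F_{k+1} + 1000 F_k)`, `k ∈ ℤ`. For a pair of them of sizes at most `N` the errors of
the two slopes differ at least by a fixed proportion, and the discrepancy is at least
`c · 1000² / N²`. The pair `(L_i, 1000 L_i + L_{i+1})`, `(F_i, 1000 F_i - F_{i-1})` has errors which
agree up to the second order, and the discrepancy is about `2001 φ^{-2i}` only. Hence for every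
large `N` no best approximation has both vectors on the sails.

The definitions are in `Pool.Agent.X123.Sail.Defs`.
-/

set_option autoImplicit false

namespace Pool.Agent.Results.MP_b5c594_nt.OffTheSails

open Pool.Agent.X123.Sail

/-- There is an algebraic arrangement `R` such that for all sufficiently large `N` best
approximations of size at most `N` exist, and each of them has a primitive vector which does not
lie on the geometric continued fraction (the union of the four sails) of `R`. -/
theorem result : ∃ R : Arrangement, Algebraic R ∧ ∃ N₀ : ℕ, ∀ N : ℕ, N₀ ≤ N →
    (∃ R' v₁ v₂, IsBest R N R' v₁ v₂) ∧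
    ∀ R' v₁ v₂, IsBest R N R' v₁ v₂ →
      emb v₁ ∉ continuedFraction R ∨ emb v₂ ∉ continuedFraction R :=
  ⟨R0, R0_algebraic, main⟩

end Pool.Agent.Results.MP_b5c594_nt.OffTheSails
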